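import Pool.Agent.Y282.RB.Stm

/-!
# Powers of the Beurling transform, angular sector, `p ≥ 2000 n ^ 2`: elementary estimates
-/

set_option autoImplicit false

open Finset

namespace Pool.Agent.W2helper99.RB

open Pool.Agent.Y282.RB

theorem kk_pos {σ : ℝ} (h0 : 0 < σ) (h1 : σ < 1) (j : ℕ) : 0 < kk σ j := by
  unfold kk
  have h3 : (0 : ℝ) ≤ j := Nat.cast_nonneg j
  have h4 : 0 < (j : ℝ) + σ := by linarith
  have h5 : 0 < (j : ℝ) + 1 - σ := by linarith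
  positivity

theorem th_nonneg {σ : ℝ} (h1 : σ ≤ 1) (j : ℕ) : 0 ≤ th σ j := by
  unfold th
  have h3 : (0 : ℝ) ≤ j := Nat.cast_nonneg j
  exact div_nonneg (by linarith) (by linarith)

theorem th_pos {σ : ℝ} (h1 : σ < 1) (j : ℕ) : 0 < th σ j := by
  unfold th
  have h3 : (0 : ℝ) ≤ j := Nat.cast_nonneg j
  exact div_pos (by linarith) (by linarith)

theorem th_le {σ : ℝ} (h0 : 0 ≤ σ) (j : ℕ) : th σ j ≤ 1 := by
  unfold th
  have h3 : (0 : ℝ) ≤ j := Nat.cast_nonneg j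
  rw [div_le_one (by linarith)]
  linarith

/-- `k_{i+1} ≤ 1/(i+1) + 1/(i+2)` -/
theorem kk_le {σ : ℝ} (h0 : 0 < σ) (h1 : σ < 1) (i : ℕ) :
    kk σ (i + 1) ≤ 1 / ((i : ℝ) + 1) + 1 / ((i : ℝ) + 2) := by
  unfold kk
  have h3 : (0 : ℝ) ≤ i := Nat.cast_nonneg i
  push_cast
  have h4 : 0 < (i : ℝ) + 1 + σ := by linarith
  have h5 : 0 < (i : ℝ) + 1 + 1 - σ := by linarith
  have h6 : 1 / ((i : ℝ) + 1) + 1 / ((i : ℝ) + 2) = (2 * (i + 1) + 1) / ((i + 1) * (i + 2)) := by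
    field_simp
    ring
  rw [h6]
  refine div_le_div_of_nonneg_left (by positivity) (by positivity) ?_
  nlinarith

theorem kk_le2 {σ : ℝ} (h0 : 0 < σ) (h1 : σ < 1) (i : ℕ) :
    kk σ (i + 1) ≤ 2 / ((i : ℝ) + 1) := by
  refine (kk_le h0 h1 i).trans ?_
  have h3 : (0 : ℝ) ≤ i := Nat.cast_nonneg i
  have h4 : 1 / ((i : ℝ) + 2) ≤ 1 / ((i : ℝ) + 1) :=
    one_div_le_one_div_of_le (by linarith) (by linarith)
  have h5 : 2 / ((i : ℝ) + 1) = 1 / ((i : ℝ) + 1) + 1 / ((i : ℝ) + 1) := by ring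
  linarith

/-- `k_{i+1} (i+2) ≤ 3` -/
theorem kk_mul_le {σ : ℝ} (h0 : 0 < σ) (h1 : σ < 1) (i : ℕ) :
    kk σ (i + 1) * ((i : ℝ) + 2) ≤ 3 := by
  have h3 : (0 : ℝ) ≤ i := Nat.cast_nonneg i
  have h2 := mul_le_mul_of_nonneg_right (kk_le h0 h1 i) (show (0 : ℝ) ≤ (i : ℝ) + 2 by linarith)
  refine h2.trans ?_
  have h4 : (1 / ((i : ℝ) + 1) + 1 / ((i : ℝ) + 2)) * ((i : ℝ) + 2)
      = 2 + 1 / ((i : ℝ) + 1) := by
    field_simp
    ring
  rw [h4]
  have h5 : 1 / ((i : ℝ) + 1) ≤ 1 := by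
    rw [div_le_one (by linarith)]
    linarith
  linarith

/-! ### distances -/

theorem dist_sq_le (γ : ℕ → ℝ) (j : ℕ) : (γ 0 - γ j) ^ 2 ≤ (j : ℝ) ^ 2 * TT j γ := by
  induction j with
  | zero => simp [TT]
  | succ j ih =>
    have hT : TT (j + 1) γ = TT j γ + (γ j - γ (j + 1)) ^ 2 / (2 * (j : ℝ) + 1) := by
      unfold TT
      rw [sum_range_succ]
    rw [hT]
    push_cast
    obtain _ | j := j
    · simp [TT]
    · push_cast at ih ⊢
      have h3 : (0 : ℝ) ≤ j := Nat.cast_nonneg j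
      set A := γ 0 - γ (j + 1) with hA
      set B := γ (j + 1) - γ (j + 1 + 1) with hB
      have hAB : γ 0 - γ (j + 1 + 1) = A + B := by rw [hA, hB]; ring
      rw [hAB]
      set t : ℝ := (j : ℝ) + 1 with ht
      have ht0 : 0 < t := by linarith
      have h1 : A ^ 2 / t ^ 2 ≤ TT (j + 1) γ := by
        rw [div_le_iff₀ (by positivity)]
        linarith
      have h2 : (A + B) ^ 2 ≤ (t + 1) ^ 2 * (A ^ 2 / t ^ 2 + B ^ 2 / (2 * t + 1)) := by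
        have h4 : (t + 1) ^ 2 * (A ^ 2 / t ^ 2 + B ^ 2 / (2 * t + 1)) - (A + B) ^ 2
            = ((2 * t + 1) * A - t ^ 2 * B) ^ 2 / (t ^ 2 * (2 * t + 1)) := by
          field_simp
          ring
        have h5 : 0 ≤ ((2 * t + 1) * A - t ^ 2 * B) ^ 2 / (t ^ 2 * (2 * t + 1)) := by positivity
        linarith
      refine h2.trans ?_
      have h6 : A ^ 2 / t ^ 2 + B ^ 2 / (2 * t + 1) ≤ TT (j + 1) γ + B ^ 2 / (2 * t + 1) := by
        linarith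
      exact mul_le_mul_of_nonneg_left h6 (by positivity)

theorem TT_mono (γ : ℕ → ℝ) {i j : ℕ} (h : i ≤ j) : TT i γ ≤ TT j γ := by
  unfold TT
  exact sum_le_sum_of_subset_of_nonneg (range_subset_range.2 h)
    fun k _ _ => by positivity

theorem TT_nonneg (n : ℕ) (γ : ℕ → ℝ) : 0 ≤ TT n γ := sum_nonneg fun j _ => by positivity

theorem abs_dist_le (γ : ℕ → ℝ) {j n : ℕ} (h : j ≤ n) :
    |γ j - γ 0| ≤ (j : ℝ) * √(TT n γ) := by
  rw [abs_sub_comm]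
  refine abs_le_of_sq_le_sq ?_ (by positivity) |> fun h => h
  rw [mul_pow, Real.sq_sqrt (TT_nonneg n γ)]
  exact (dist_sq_le γ j).trans (mul_le_mul_of_nonneg_left (TT_mono γ h) (by positivity))

theorem yy_dist {σ : ℝ} (h0 : 0 ≤ σ) (h1 : σ ≤ 1) (γ : ℕ → ℝ) {j n : ℕ} (h : j + 1 ≤ n) :
    |yy σ γ j - γ 0| ≤ ((j : ℝ) + 1) * √(TT n γ) := by
  have e : yy σ γ j - γ 0 = th σ j * (γ j - γ 0) + (1 - th σ j) * (γ (j + 1) - γ 0) := by
    unfold yy
    ring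
  have hu := Real.sqrt_nonneg (TT n γ)
  have h2 := abs_dist_le γ (show j ≤ n by omega)
  have h3 := abs_dist_le γ h
  push_cast at h3
  rw [e]
  refine (abs_add_le _ _).trans ?_
  rw [abs_mul, abs_mul, abs_of_nonneg (th_nonneg h1 j),
    abs_of_nonneg (show 0 ≤ 1 - th σ j by linarith [th_le h0 j])]
  have h4 : |γ j - γ 0| ≤ ((j : ℝ) + 1) * √(TT n γ) := by nlinarith
  have h5 := mul_le_mul_of_nonneg_left h4 (th_nonneg h1 j)
  have h6 := mul_le_mul_of_nonneg_left h3 (show 0 ≤ 1 - th σ j by linarith [th_le h0 j])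
  nlinarith

end Pool.Agent.W2helper99.RB
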