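import Pool.Agent.W2helper99.RB.E1

/-!
# The alternating sum, harmonic sums
-/

set_option autoImplicit false

open Finset

namespace Pool.Agent.W2helper99.RB

open Pool.Agent.Y282.RB

/-! ### harmonic sums -/

theorem inv_le_log (N : ℕ) : 1 / ((N : ℝ) + 2) ≤ Real.log ((N : ℝ) + 2) - Real.log ((N : ℝ) + 1) := by
  have h0 : (0 : ℝ) ≤ N := Nat.cast_nonneg N
  have h1 := Real.log_le_sub_one_of_pos (show 0 < ((N : ℝ) + 1) / ((N : ℝ) + 2) by positivity)
  rw [Real.log_div (by positivity) (by positivity)] at h1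
  have h2 : ((N : ℝ) + 1) / ((N : ℝ) + 2) - 1 = -(1 / ((N : ℝ) + 2)) := by
    field_simp
    ring
  rw [h2] at h1
  linarith

theorem sum_inv2 (N : ℕ) : ∑ i ∈ range N, 1 / ((i : ℝ) + 2) ≤ Real.log ((N : ℝ) + 1) := by
  induction N with
  | zero => simp
  | succ N ih =>
    rw [sum_range_succ]
    have := inv_le_log N
    push_cast
    have e : (N : ℝ) + 1 + 1 = N + 2 := by ring
    rw [e]
    linarith

theorem sum_inv_diff (N : ℕ) :
    ∑ i ∈ range N, (1 / ((i : ℝ) + 1) - 1 / ((i : ℝ) + 2)) = 1 - 1 / ((N : ℝ) + 1) := by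
  induction N with
  | zero => simp
  | succ N ih =>
    rw [sum_range_succ, ih]
    push_cast
    have e : (N : ℝ) + 1 + 1 = N + 2 := by ring
    rw [e]
    ring

theorem sum_inv (N : ℕ) : ∑ i ∈ range N, (1 / ((i : ℝ) + 1) + 1 / ((i : ℝ) + 2))
    ≤ 1 + 2 * Real.log ((N : ℝ) + 1) := by
  have h1 := sum_inv_diff N
  have h2 := sum_inv2 N
  have h3 : ∑ i ∈ range N, (1 / ((i : ℝ) + 1) + 1 / ((i : ℝ) + 2))
      = ∑ i ∈ range N, (1 / ((i : ℝ) + 1) - 1 / ((i : ℝ) + 2))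
        + 2 * ∑ i ∈ range N, 1 / ((i : ℝ) + 2) := by
    rw [mul_sum, ← sum_add_distrib]
    exact sum_congr rfl fun i _ => by ring
  rw [h3, h1]
  have h4 : 0 ≤ 1 / ((N : ℝ) + 1) := by positivity
  linarith

/-- `∑ min (2 / j) v ≤ 4 + 2 log max(1, N v / 2)` -/
theorem min_sum (v : ℝ) (hv : 0 ≤ v) (N : ℕ) (f : ℕ → ℝ)
    (hf1 : ∀ i, f i ≤ 2 / ((i : ℝ) + 1)) (hf2 : ∀ i, f i ≤ v) :
    (N * v ≤ 2 → ∑ i ∈ range N, f i ≤ N * v) ∧
    (2 < N * v → ∑ i ∈ range N, f i ≤ 4 + 2 * Real.log (N * v / 2)) := by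
  induction N with
  | zero => simp
  | succ N ih =>
    have h0 : (0 : ℝ) ≤ N := Nat.cast_nonneg N
    rw [sum_range_succ]
    push_cast
    constructor
    · intro h
      have h1 := ih.1 (by nlinarith)
      have h2 := hf2 N
      linarith
    · intro h
      by_cases h3 : (N : ℝ) * v ≤ 2
      · have h1 := ih.1 h3
        have h2 := hf1 N
        have h4 : 2 / ((N : ℝ) + 1) ≤ 2 := by
          rw [div_le_iff₀ (by linarith)]
          linarith
        have h5 : 0 ≤ Real.log (((N : ℝ) + 1) * v / 2) := Real.log_nonneg (by linarith)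
        linarith
      · push Not at h3
        have hN : 1 ≤ (N : ℝ) := by
          rcases Nat.eq_zero_or_pos N with h6 | h6
          · subst h6
            simp at h3
            linarith
          · exact_mod_cast h6
        have h1 := ih.2 h3
        have h2 := hf1 N
        have hv' : 0 < v := by
          by_contra hc
          have : v = 0 := le_antisymm (not_lt.1 hc) hv
          rw [this] at h3
          simp at h3
          linarith
        have h4 := Real.log_le_sub_one_of_pos (show 0 < (N : ℝ) / ((N : ℝ) + 1) by positivity)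
        rw [Real.log_div (by positivity) (by positivity)] at h4
        have h5 : (N : ℝ) / ((N : ℝ) + 1) - 1 = -(1 / ((N : ℝ) + 1)) := by
          field_simp
          ring
        rw [h5] at h4
        have h6 : Real.log (((N : ℝ) + 1) * v / 2) = Real.log ((N : ℝ) + 1) + Real.log (v / 2) := by
          rw [mul_div_assoc, Real.log_mul (by positivity) (by positivity)]
        have h7 : Real.log ((N : ℝ) * v / 2) = Real.log (N : ℝ) + Real.log (v / 2) := by
          rw [mul_div_assoc, Real.log_mul (by positivity) (by positivity)]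
        rw [h7] at h1
        rw [h6]
        have h8 : 2 / ((N : ℝ) + 1) = 2 * (1 / ((N : ℝ) + 1)) := by ring
        linarith

/-! ### the alternating sum -/

/-- `ω_{i+1}` -/
noncomputable def om (σ : ℝ) : ℕ → ℝ
  | 0 => 1
  | i + 1 => om σ i * (((i : ℝ) + 1 + σ) / ((i : ℝ) + 2 - σ))

theorem om_pos {σ : ℝ} (h0 : 0 < σ) (h1 : σ < 1) (i : ℕ) : 0 < om σ i := by
  induction i with
  | zero => simp [om]
  | succ i ih =>
    have h3 : (0 : ℝ) ≤ i := Nat.cast_nonneg i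
    rw [om]
    exact mul_pos ih (div_pos (by linarith) (by linarith))

theorem om_le {σ : ℝ} (h0 : 0 < σ) (h1 : σ ≤ 1 / 2) (i : ℕ) :
    om σ i ≤ (1 + 3 * σ * i) / ((i : ℝ) + 1) := by
  induction i with
  | zero => simp [om]
  | succ i ih =>
    have h3 : (0 : ℝ) ≤ i := Nat.cast_nonneg i
    rw [om]
    have h4 : 0 ≤ ((i : ℝ) + 1 + σ) / ((i : ℝ) + 2 - σ) := div_nonneg (by linarith) (by linarith)
    refine (mul_le_mul_of_nonneg_right ih h4).trans ?_
    push_cast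
    rw [div_mul_div_comm, div_le_div_iff₀ (by nlinarith) (by linarith)]
    have h5 : 0 ≤ σ * i := by positivity
    have h6 : 0 ≤ σ * i * i := by positivity
    have key : (1 + 3 * σ * (i + 1)) * (((i : ℝ) + 1) * (i + 2 - σ))
        - (1 + 3 * σ * i) * (i + 1 + σ) * (i + 1 + 1)
        = σ * (3 * ((i : ℝ) + 1) ^ 2 + (i + 1) - 1 - 3 * σ * (2 * (i + 1) ^ 2 - 1)) := by ring
    have key2 : 0 ≤ 3 * ((i : ℝ) + 1) ^ 2 + (i + 1) - 1 - 3 * σ * (2 * (i + 1) ^ 2 - 1) := by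
      have h7 : 0 ≤ 2 * ((i : ℝ) + 1) ^ 2 - 1 := by nlinarith
      have h8 : 3 * σ * (2 * ((i : ℝ) + 1) ^ 2 - 1) ≤ 3 * (1 / 2) * (2 * ((i : ℝ) + 1) ^ 2 - 1) :=
        mul_le_mul_of_nonneg_right (by linarith) h7
      nlinarith
    nlinarith [mul_nonneg h0.le key2]

theorem one_sub_th {σ : ℝ} (h1 : σ < 1) (j : ℕ) :
    (1 - th σ j) / th σ j = ((j : ℝ) + σ) / ((j : ℝ) + 1 - σ) := by
  have h3 : (0 : ℝ) ≤ j := Nat.cast_nonneg j
  have h4 : 0 < (j : ℝ) + 1 - σ := by linarith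
  have h5 : 0 < 2 * (j : ℝ) + 1 := by linarith
  unfold th
  field_simp
  ring

theorem alt {σ : ℝ} (h0 : 0 < σ) (h1 : σ < 1) (γ : ℕ → ℝ) (N : ℕ) :
    |γ 1| ≤ ∑ i ∈ range N, om σ i / th σ (i + 1) * |yy σ γ (i + 1)| + om σ N * |γ (N + 1)| := by
  induction N with
  | zero => simp [om]
  | succ N ih =>
    refine ih.trans ?_
    rw [sum_range_succ, add_assoc]
    refine add_le_add_right ?_ _
    have ht := th_pos h1 (N + 1)
    have e1 : γ (N + 1) = (1 / th σ (N + 1)) * yy σ γ (N + 1)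
        - ((1 - th σ (N + 1)) / th σ (N + 1)) * γ (N + 2) := by
      unfold yy
      field_simp
      ring
    have h2 : 0 ≤ (1 - th σ (N + 1)) / th σ (N + 1) :=
      div_nonneg (by linarith [th_le h0.le (N + 1)]) ht.le
    have h3 : |γ (N + 1)| ≤ (1 / th σ (N + 1)) * |yy σ γ (N + 1)|
        + ((1 - th σ (N + 1)) / th σ (N + 1)) * |γ (N + 2)| := by
      rw [e1]
      refine (abs_sub _ _).trans ?_
      rw [abs_mul, abs_mul, abs_of_nonneg h2, abs_of_pos (by positivity)]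
    have h4 : om σ (N + 1) = om σ N * ((1 - th σ (N + 1)) / th σ (N + 1)) := by
      rw [one_sub_th h1, om]
      push_cast
      congr 2
      ring
    rw [h4]
    have h5 := mul_le_mul_of_nonneg_left h3 (om_pos h0 h1 N).le
    refine h5.trans (le_of_eq ?_)
    ring

/-- the terms of `S` -/
theorem term_le {σ : ℝ} (h0 : 0 < σ) (i : ℕ) (hi : σ * ((i : ℝ) + 1) ≤ 1 / 1000) :
    (om σ i / th σ (i + 1)) ^ 2 / kk σ (i + 1)
      ≤ 1 / ((i : ℝ) + 1) + 1 / ((i : ℝ) + 2) + 22 * σ := by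
  have h3 : (0 : ℝ) ≤ i := Nat.cast_nonneg i
  have hσ : σ ≤ 1 / 1000 := by nlinarith
  have h4 : 0 < (i : ℝ) + 1 + σ := by linarith
  have h5 : 0 < (i : ℝ) + 2 - σ := by linarith
  have h6 : 0 < 2 * (i : ℝ) + 3 := by linarith
  have h7 : 0 < (i : ℝ) + 1 := by linarith
  have h8 : 0 < (i : ℝ) + 2 := by linarith
  have hop := om_pos h0 (by linarith : σ < 1) i
  have e1 : (om σ i / th σ (i + 1)) ^ 2 / kk σ (i + 1)
      = om σ i ^ 2 * ((2 * i + 3) * (i + 1 + σ) / (i + 2 - σ)) := by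
    unfold th kk
    push_cast
    have e2 : (i : ℝ) + 1 + 1 - σ = i + 2 - σ := by ring
    have e3 : 2 * ((i : ℝ) + 1) + 1 = 2 * i + 3 := by ring
    rw [e2, e3]
    field_simp
  rw [e1]
  have h9 := om_le h0 (by linarith : σ ≤ 1 / 2) i
  set q : ℝ := σ * ((i : ℝ) + 1) with hq
  have hq0 : 0 < q := by positivity
  have hσq : σ ≤ q := by nlinarith
  have h10 : om σ i ≤ (1 + 3 * q) / ((i : ℝ) + 1) := by
    refine h9.trans (div_le_div_of_nonneg_right ?_ h7.le)
    rw [hq]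
    nlinarith
  have h11 : om σ i ^ 2 ≤ (1 + 7 * q) / ((i : ℝ) + 1) ^ 2 := by
    have h12 : om σ i ^ 2 ≤ ((1 + 3 * q) / ((i : ℝ) + 1)) ^ 2 := by
      exact pow_le_pow_left₀ hop.le h10 2
    refine h12.trans ?_
    rw [div_pow]
    refine div_le_div_of_nonneg_right ?_ (by positivity)
    nlinarith
  have h13 : (2 * (i : ℝ) + 3) * (i + 1 + σ) / (i + 2 - σ)
      ≤ (2 * i + 3) * ((i + 1) * (1 + q)) * ((1 + q) / (i + 2)) := by
    rw [mul_div_assoc, mul_assoc]
    refine mul_le_mul_of_nonneg_left ?_ h6.le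
    rw [mul_div_assoc', div_le_div_iff₀ h5 h8]
    have h14 : (i : ℝ) + 1 + σ ≤ (i + 1) * (1 + q) := by nlinarith
    have h15 : (i : ℝ) + 2 ≤ (1 + q) * (i + 2 - σ) := by nlinarith
    calc ((i : ℝ) + 1 + σ) * (i + 2) ≤ ((i + 1) * (1 + q)) * ((1 + q) * (i + 2 - σ)) :=
          mul_le_mul h14 h15 h8.le (by positivity)
      _ = (i + 1) * (1 + q) * (1 + q) * (i + 2 - σ) := by ring
  have h16 : 0 ≤ (2 * (i : ℝ) + 3) * (i + 1 + σ) / (i + 2 - σ) := by positivity
  refine (mul_le_mul h11 h13 h16 (by positivity)).trans ?_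
  have e4 : (1 + 7 * q) / ((i : ℝ) + 1) ^ 2 * ((2 * i + 3) * ((i + 1) * (1 + q)) * ((1 + q) / (i + 2)))
      = (1 / ((i : ℝ) + 1) + 1 / ((i : ℝ) + 2)) * ((1 + 7 * q) * (1 + q) ^ 2) := by
    field_simp
    ring
  rw [e4]
  have h17 : (1 + 7 * q) * (1 + q) ^ 2 ≤ 1 + 11 * q := by nlinarith [mul_pos hq0 hq0, mul_pos hq0 (mul_pos hq0 hq0)]
  have h18 : 0 ≤ 1 / ((i : ℝ) + 1) + 1 / ((i : ℝ) + 2) := by positivity
  refine (mul_le_mul_of_nonneg_left h17 h18).trans ?_
  have h19 : (1 / ((i : ℝ) + 1) + 1 / ((i : ℝ) + 2)) * (11 * q) ≤ 22 * σ := by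
    have e5 : (1 / ((i : ℝ) + 1) + 1 / ((i : ℝ) + 2)) * (11 * q)
        = 11 * σ * (1 + ((i : ℝ) + 1) / (i + 2)) := by
      rw [hq]
      field_simp
    rw [e5]
    have h20 : ((i : ℝ) + 1) / (i + 2) ≤ 1 := by
      rw [div_le_one h8]
      linarith
    nlinarith
  linarith

end Pool.Agent.W2helper99.RB
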