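import Pool.Agent.W2helper99.RB.E2

/-!
# The constraint `Λ = 1`
-/

set_option autoImplicit false

open Finset

namespace Pool.Agent.W2helper99.RB

open Pool.Agent.Y282.RB

/-- the normalised situation; `N + 1` is the power -/
structure Dt (σ : ℝ) (N : ℕ) (γ : ℕ → ℝ) : Prop where
  s0 : 0 < σ
  s1 : σ * ((N : ℝ) + 1) ^ 2 ≤ 1 / 2000
  lam : Lam σ (N + 1) γ = 1
  a0 : 0 ≤ γ 0

variable {σ : ℝ} {N : ℕ} {γ : ℕ → ℝ}

theorem Dt.n1 (_ : Dt σ N γ) : (1 : ℝ) ≤ (N : ℝ) + 1 := by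
  have h3 : (0 : ℝ) ≤ N := Nat.cast_nonneg N
  linarith

theorem Dt.sn (h : Dt σ N γ) : σ * ((N : ℝ) + 1) ≤ 1 / 2000 := by
  have h1 := h.s1
  have h2 := h.n1
  have h0 := h.s0
  nlinarith [mul_nonneg h0.le (show (0 : ℝ) ≤ N + 1 by linarith)]

theorem Dt.s2 (h : Dt σ N γ) : σ ≤ 1 / 2000 := by
  have h1 := h.sn
  have h2 := h.n1
  have h0 := h.s0
  nlinarith

theorem kk_zero (σ : ℝ) : kk σ 0 = 1 / (σ * (1 - σ)) := by
  unfold kk
  norm_num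

theorem Dt.kk0_pos (h : Dt σ N γ) : 0 < kk σ 0 := kk_pos h.s0 (by linarith [h.s2]) 0

/-- `μ = k_0 σ = 1 / (1 - σ)` -/
theorem Dt.kk0_mul (h : Dt σ N γ) : kk σ 0 * σ = 1 / (1 - σ) := by
  have h0 := h.s0
  have h1 : 0 < 1 - σ := by linarith [h.s2]
  rw [kk_zero]
  field_simp

theorem Dt.mu_le (h : Dt σ N γ) : 1 / (1 - σ) ≤ 1.001 := by
  have h1 : 0 < 1 - σ := by linarith [h.s2]
  rw [div_le_iff₀ h1]
  linarith [h.s2]

theorem Dt.mu_ge (h : Dt σ N γ) : 1 ≤ 1 / (1 - σ) := by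
  have h1 : 0 < 1 - σ := by linarith [h.s2]
  rw [le_div_iff₀ h1]
  linarith [h.s0]

theorem Dt.mu_sq (h : Dt σ N γ) : (1 / (1 - σ)) ^ 2 ≤ 1 + 5 * σ := by
  have h1 : 0 < 1 - σ := by linarith [h.s2]
  have h0 := h.s0
  have h2 := h.s2
  rw [div_pow, one_pow, div_le_iff₀ (by positivity)]
  have e : (1 + 5 * σ) * (1 - σ) ^ 2 = 1 + σ * (3 - 9 * σ + 5 * σ ^ 2) := by ring
  rw [e]
  have : 0 ≤ σ * (3 - 9 * σ + 5 * σ ^ 2) := mul_nonneg h0.le (by nlinarith)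
  linarith

theorem Dt.kk0_ge (h : Dt σ N γ) : 1 / σ ≤ kk σ 0 := by
  have h1 : 0 < 1 - σ := by linarith [h.s2]
  have h0 := h.s0
  rw [kk_zero]
  exact one_div_le_one_div_of_le (by positivity) (by nlinarith)

theorem Dt.inv_ge (h : Dt σ N γ) : 2000 * ((N : ℝ) + 1) ^ 2 ≤ 1 / σ := by
  rw [le_div_iff₀ h.s0]
  linarith [h.s1]

theorem Dt.cons (h : Dt σ N γ) : kk σ 0 * (yy σ γ 0 ^ 2 - 1)
    = ∑ i ∈ range N, kk σ (i + 1) * (1 - yy σ γ (i + 1) ^ 2) := by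
  have h1 := h.lam
  have hK : 0 < KK σ (N + 1) := by
    unfold KK
    exact sum_pos (fun j _ => kk_pos h.s0 (by linarith [h.s2]) j) ⟨0, mem_range.mpr (by omega)⟩
  unfold Lam at h1
  rw [div_eq_one_iff_eq hK.ne'] at h1
  unfold KK at h1
  rw [sum_range_succ', sum_range_succ'] at h1
  have h2 : ∑ i ∈ range N, kk σ (i + 1) * (1 - yy σ γ (i + 1) ^ 2)
      = ∑ i ∈ range N, kk σ (i + 1) - ∑ i ∈ range N, kk σ (i + 1) * yy σ γ (i + 1) ^ 2 := by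
    rw [← sum_sub_distrib]
    exact sum_congr rfl fun i _ => by ring
  rw [h2]
  linarith

theorem yy_zero (σ : ℝ) (γ : ℕ → ℝ) : yy σ γ 0 = γ 0 - σ * (γ 0 - γ 1) := by
  unfold yy th
  norm_num
  ring

/-- the first difference -/
theorem d0_le (N : ℕ) (γ : ℕ → ℝ) : |γ 0 - γ 1| ≤ √(TT (N + 1) γ) := by
  have h := abs_dist_le γ (show 1 ≤ N + 1 by omega)
  rw [abs_sub_comm] at h
  simpa using h

theorem Dt.ydist (h : Dt σ N γ) {i : ℕ} (hi : i < N) :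
    |yy σ γ (i + 1) - γ 0| ≤ ((i : ℝ) + 2) * √(TT (N + 1) γ) := by
  have h1 := yy_dist h.s0.le (by linarith [h.s2]) γ (show i + 1 + 1 ≤ N + 1 by omega)
  push_cast at h1
  have e : (i : ℝ) + 1 + 1 = i + 2 := by ring
  rwa [e] at h1

/-- case `γ 0 ≤ 1` -/
theorem Dt.caseA (h : Dt σ N γ) (ha : γ 0 ≤ 1) : kk σ 0 * (1 - γ 0 ^ 2)
    ≤ 6 * ((N : ℝ) + 1) * √(TT (N + 1) γ) + 3 * ((N : ℝ) + 1) ^ 2 * √(TT (N + 1) γ) ^ 2 := by
  set u := √(TT (N + 1) γ) with hu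
  have hu0 : 0 ≤ u := Real.sqrt_nonneg _
  have h0 := h.s0
  have h2 := h.s2
  have hn := h.n1
  have ha0 := h.a0
  have hN : (0 : ℝ) ≤ N := Nat.cast_nonneg N
  have hk := h.kk0_pos
  have hd := d0_le N γ
  rw [← hu] at hd
  -- the left side
  have h3 : yy σ γ 0 ^ 2 ≤ γ 0 ^ 2 + σ * (2 * u + u ^ 2 / 1000) := by
    have h4 : |yy σ γ 0| ≤ γ 0 + σ * u := by
      rw [yy_zero]
      refine (abs_sub _ _).trans ?_
      rw [abs_of_nonneg ha0, abs_mul, abs_of_pos h0]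
      have := mul_le_mul_of_nonneg_left hd h0.le
      linarith
    have h5 : yy σ γ 0 ^ 2 ≤ (γ 0 + σ * u) ^ 2 := by
      rw [← sq_abs]
      exact pow_le_pow_left₀ (abs_nonneg _) h4 2
    refine h5.trans ?_
    have h6 : 0 ≤ σ * u := by positivity
    have h7 : 0 ≤ σ * u ^ 2 := by positivity
    have h8 : γ 0 * (σ * u) ≤ σ * u := by nlinarith
    have h9 : σ * (σ * u ^ 2) ≤ 1 / 1000 * (σ * u ^ 2) :=
      mul_le_mul_of_nonneg_right (by linarith) h7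
    nlinarith
  have h4 : kk σ 0 * (1 - γ 0 ^ 2) ≤ kk σ 0 * (1 - yy σ γ 0 ^ 2)
      + 1.001 * (2 * u + u ^ 2 / 1000) := by
    have h5 : kk σ 0 * (yy σ γ 0 ^ 2 - γ 0 ^ 2) ≤ kk σ 0 * (σ * (2 * u + u ^ 2 / 1000)) :=
      mul_le_mul_of_nonneg_left (by linarith) hk.le
    have h6 : kk σ 0 * (σ * (2 * u + u ^ 2 / 1000)) ≤ 1.001 * (2 * u + u ^ 2 / 1000) := by
      rw [← mul_assoc, h.kk0_mul]
      exact mul_le_mul_of_nonneg_right h.mu_le (by positivity)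
    nlinarith
  have h5 : kk σ 0 * (1 - yy σ γ 0 ^ 2) ≤ N * (6 * u + 3 * ((N : ℝ) + 1) * u ^ 2) := by
    have h6 : kk σ 0 * (1 - yy σ γ 0 ^ 2)
        = ∑ i ∈ range N, kk σ (i + 1) * (yy σ γ (i + 1) ^ 2 - 1) := by
      have h7 := h.cons
      have h8 : ∑ i ∈ range N, kk σ (i + 1) * (yy σ γ (i + 1) ^ 2 - 1)
          = -∑ i ∈ range N, kk σ (i + 1) * (1 - yy σ γ (i + 1) ^ 2) := by
        rw [← sum_neg_distrib]
        exact sum_congr rfl fun i _ => by ring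
      rw [h8, ← h7]
      ring
    rw [h6]
    have h9 : ∀ i ∈ range N, kk σ (i + 1) * (yy σ γ (i + 1) ^ 2 - 1)
        ≤ 6 * u + 3 * ((N : ℝ) + 1) * u ^ 2 := by
      intro i hi
      have hi' := mem_range.1 hi
      have h10 := h.ydist hi'
      rw [← hu] at h10
      have hiN : (i : ℝ) + 2 ≤ N + 1 := by
        have : (i : ℝ) + 1 ≤ N := by exact_mod_cast hi'
        linarith
      have hi0 : (0 : ℝ) ≤ i := Nat.cast_nonneg i
      have h11 : |yy σ γ (i + 1)| ≤ 1 + ((i : ℝ) + 2) * u := by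
        have := abs_sub_abs_le_abs_sub (yy σ γ (i + 1)) (γ 0)
        rw [abs_of_nonneg ha0] at this
        linarith
      have h12 : yy σ γ (i + 1) ^ 2 ≤ (1 + ((i : ℝ) + 2) * u) ^ 2 := by
        rw [← sq_abs]
        exact pow_le_pow_left₀ (abs_nonneg _) h11 2
      have hki := kk_pos h0 (by linarith : σ < 1) (i + 1)
      have hkm := kk_mul_le h0 (by linarith : σ < 1) i
      have h13 : kk σ (i + 1) * (yy σ γ (i + 1) ^ 2 - 1)
          ≤ kk σ (i + 1) * (((i : ℝ) + 2) * (2 * u + ((i : ℝ) + 2) * u ^ 2)) := by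
        refine mul_le_mul_of_nonneg_left ?_ hki.le
        nlinarith
      refine h13.trans ?_
      rw [← mul_assoc]
      have h14 : 0 ≤ 2 * u + ((i : ℝ) + 2) * u ^ 2 := by positivity
      refine (mul_le_mul_of_nonneg_right hkm h14).trans ?_
      have h15 : ((i : ℝ) + 2) * u ^ 2 ≤ ((N : ℝ) + 1) * u ^ 2 :=
        mul_le_mul_of_nonneg_right hiN (by positivity)
      linarith
    refine (sum_le_sum h9).trans ?_
    rw [sum_const, card_range, nsmul_eq_mul]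
  have h6 : 0 ≤ u ^ 2 := by positivity
  nlinarith

/-- case `1 ≤ γ 0` -/
theorem Dt.starB (h : Dt σ N γ) : kk σ 0 * (γ 0 ^ 2 - 1)
    ≤ 2 * (γ 0 * (1 / (1 - σ))) * (γ 0 - γ 1)
      + ∑ i ∈ range N, kk σ (i + 1) * (1 - yy σ γ (i + 1) ^ 2) := by
  rw [← h.cons, ← h.kk0_mul, yy_zero]
  have hk := h.kk0_pos
  have h1 : 0 ≤ kk σ 0 * (σ * (γ 0 - γ 1)) ^ 2 := by positivity
  nlinarith

/-- `S` -/
noncomputable def SS (σ : ℝ) (N : ℕ) : ℝ :=
  ∑ i ∈ range N, (om σ i / th σ (i + 1)) ^ 2 / kk σ (i + 1)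

theorem Dt.two (h : Dt σ N γ) (hg : |γ (N + 1)| ≤ γ 0) : kk σ 0 * (γ 0 ^ 2 - 1)
    ≤ γ 0 ^ 2 * (4 * (1 / (1 - σ)) + (1 / (1 - σ)) ^ 2 * SS σ N)
      + ∑ i ∈ range N, kk σ (i + 1) := by
  have h0 := h.s0
  have h2 := h.s2
  have ha0 := h.a0
  have h1 := h.starB
  set A := γ 0 * (1 / (1 - σ)) with hA
  have hA0 : 0 ≤ A := mul_nonneg ha0 (by linarith [h.mu_ge])
  have hom : om σ N ≤ 1 := by
    refine (om_le h0 (by linarith) N).trans ?_
    have hN : (0 : ℝ) ≤ N := Nat.cast_nonneg N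
    rw [div_le_one (by linarith)]
    nlinarith
  have h3 := alt h0 (by linarith : σ < 1) γ N
  have h4 : om σ N * |γ (N + 1)| ≤ γ 0 := by
    have := om_pos h0 (by linarith : σ < 1) N
    have h5 : om σ N * |γ (N + 1)| ≤ 1 * |γ (N + 1)| :=
      mul_le_mul_of_nonneg_right hom (abs_nonneg _)
    linarith
  have h5 : γ 0 - γ 1 ≤ 2 * γ 0
      + ∑ i ∈ range N, om σ i / th σ (i + 1) * |yy σ γ (i + 1)| := by
    have := neg_abs_le (γ 1)
    linarith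
  have h6 : 2 * A * (γ 0 - γ 1) ≤ 4 * A * γ 0
      + ∑ i ∈ range N, 2 * A * (om σ i / th σ (i + 1) * |yy σ γ (i + 1)|) := by
    have := mul_le_mul_of_nonneg_left h5 (show 0 ≤ 2 * A by linarith)
    refine this.trans (le_of_eq ?_)
    rw [← mul_sum]
    ring
  have h7 : ∑ i ∈ range N, 2 * A * (om σ i / th σ (i + 1) * |yy σ γ (i + 1)|)
      ≤ ∑ i ∈ range N, (kk σ (i + 1) * yy σ γ (i + 1) ^ 2
        + A ^ 2 * ((om σ i / th σ (i + 1)) ^ 2 / kk σ (i + 1))) := by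
    refine sum_le_sum fun i _ => ?_
    have hk := kk_pos h0 (by linarith : σ < 1) (i + 1)
    set w := om σ i / th σ (i + 1)
    set k := kk σ (i + 1)
    set y := yy σ γ (i + 1)
    have h8 : 0 ≤ (k * |y| - A * w) ^ 2 / k := by positivity
    have h9 : (k * |y| - A * w) ^ 2 / k = k * y ^ 2 + A ^ 2 * (w ^ 2 / k) - 2 * A * (w * |y|) := by
      rw [← sq_abs y]
      field_simp
      ring
    linarith
  have h8 : ∑ i ∈ range N, (kk σ (i + 1) * yy σ γ (i + 1) ^ 2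
        + A ^ 2 * ((om σ i / th σ (i + 1)) ^ 2 / kk σ (i + 1)))
      = ∑ i ∈ range N, kk σ (i + 1) * yy σ γ (i + 1) ^ 2 + A ^ 2 * SS σ N := by
    rw [sum_add_distrib, ← mul_sum]
    rfl
  have h9 : ∑ i ∈ range N, kk σ (i + 1) * (1 - yy σ γ (i + 1) ^ 2)
      = ∑ i ∈ range N, kk σ (i + 1) - ∑ i ∈ range N, kk σ (i + 1) * yy σ γ (i + 1) ^ 2 := by
    rw [← sum_sub_distrib]
    exact sum_congr rfl fun i _ => by ring
  rw [h9] at h1
  have h10 : 4 * A * γ 0 + A ^ 2 * SS σ N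
      = γ 0 ^ 2 * (4 * (1 / (1 - σ)) + (1 / (1 - σ)) ^ 2 * SS σ N) := by
    rw [hA]
    ring
  linarith

theorem Dt.log_le (_ : Dt σ N γ) : Real.log ((N : ℝ) + 1) ≤ N := by
  have hN : (0 : ℝ) ≤ N := Nat.cast_nonneg N
  have := Real.log_le_sub_one_of_pos (show 0 < (N : ℝ) + 1 by linarith)
  linarith

theorem Dt.log_nn (_ : Dt σ N γ) : 0 ≤ Real.log ((N : ℝ) + 1) := by
  have hN : (0 : ℝ) ≤ N := Nat.cast_nonneg N
  exact Real.log_nonneg (by linarith)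

theorem Dt.kap_le (h : Dt σ N γ) :
    ∑ i ∈ range N, kk σ (i + 1) ≤ 1 + 2 * Real.log ((N : ℝ) + 1) :=
  (sum_le_sum fun i _ => kk_le h.s0 (by linarith [h.s2]) i).trans (sum_inv N)

theorem Dt.SS_le (h : Dt σ N γ) : SS σ N ≤ 1.011 + 2 * Real.log ((N : ℝ) + 1) := by
  have h1 : SS σ N ≤ ∑ i ∈ range N, (1 / ((i : ℝ) + 1) + 1 / ((i : ℝ) + 2) + 22 * σ) := by
    refine sum_le_sum fun i hi => term_le h.s0 i ?_
    have hi' : (i : ℝ) + 1 ≤ N + 1 := by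
      have : (i : ℝ) + 1 ≤ N := by exact_mod_cast mem_range.1 hi
      linarith
    have := mul_le_mul_of_nonneg_left hi' h.s0.le
    linarith [h.sn]
  rw [sum_add_distrib, sum_const, card_range, nsmul_eq_mul] at h1
  have h2 := sum_inv N
  have h3 := h.sn
  have h4 := h.s0
  nlinarith

theorem SS_nonneg (h0 : 0 < σ) (h1 : σ < 1) (N : ℕ) : 0 ≤ SS σ N :=
  sum_nonneg fun i _ => div_nonneg (sq_nonneg _) (kk_pos h0 h1 _).le

/-- the numbers -/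
theorem Dt.num (h : Dt σ N γ) (h1 : 1 ≤ γ 0) (hg : |γ (N + 1)| ≤ γ 0) :
    γ 0 ^ 2 - 1 ≤ 31 / 10000 ∧
      kk σ 0 * (γ 0 ^ 2 - 1) ≤ 6.04 + 4 * Real.log ((N : ℝ) + 1) := by
  have h2 := h.two hg
  have hk := h.kap_le
  have hS := h.SS_le
  have hS0 := SS_nonneg h.s0 (by linarith [h.s2]) N
  have hL := h.log_le
  have hL0 := h.log_nn
  have hmu := h.mu_le
  have hmu2 := h.mu_sq
  have hm := h.kk0_ge
  have hi := h.inv_ge
  have hsn := h.sn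
  have hs0 := h.s0
  have hn := h.n1
  set L := Real.log ((N : ℝ) + 1)
  set n : ℝ := (N : ℝ) + 1 with hnd
  set δ := γ 0 ^ 2 - 1 with hδ
  have hδ0 : 0 ≤ δ := by nlinarith
  have hg2 : γ 0 ^ 2 = 1 + δ := by rw [hδ]; ring
  rw [hg2] at h2
  set B := 4 * (1 / (1 - σ)) + (1 / (1 - σ)) ^ 2 * SS σ N with hB
  have h3 : (1 / (1 - σ)) ^ 2 * SS σ N ≤ 1.016 + 2 * L := by
    have h4 : (1 / (1 - σ)) ^ 2 * SS σ N ≤ (1 + 5 * σ) * (1.011 + 2 * L) :=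
      mul_le_mul hmu2 hS hS0 (by linarith)
    have h5 : σ * (1.011 + 2 * L) ≤ σ * (2 * n) :=
      mul_le_mul_of_nonneg_left (by linarith) hs0.le
    nlinarith
  have hBle : B ≤ 5.02 + 2 * L := by
    rw [hB]
    linarith
  have hB1 : B ≤ 5.02 * n := by linarith
  have h4 : δ * (kk σ 0 - B) ≤ 6.02 + 4 * L := by nlinarith
  have h5 : 6.02 + 4 * L ≤ 6.02 * n := by linarith
  have h6 : 1994 * n ^ 2 ≤ kk σ 0 - B := by nlinarith
  have h7 : δ * (1994 * n ^ 2) ≤ 6.02 * n := by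
    have := mul_le_mul_of_nonneg_left h6 hδ0
    linarith
  have h8 : δ * n ≤ 31 / 10000 := by
    have hn0 : 0 < n := by linarith
    have h9 : (δ * n) * (1994 * n) ≤ 6.02 * n := by
      refine le_trans (le_of_eq ?_) h7
      ring
    by_contra hc
    push Not at hc
    nlinarith
  constructor
  · nlinarith
  · have h9 : δ * B ≤ δ * (5.02 * n) := mul_le_mul_of_nonneg_left hB1 hδ0
    nlinarith

/-- the terms for `j ≥ 1`, linear bound -/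
theorem Dt.lin (h : Dt σ N γ) (h1 : 1 ≤ γ 0) {i : ℕ} (hi : i < N) :
    kk σ (i + 1) * (1 - yy σ γ (i + 1) ^ 2) ≤ 6 * γ 0 * √(TT (N + 1) γ) := by
  set u := √(TT (N + 1) γ) with hu
  have hu0 : 0 ≤ u := Real.sqrt_nonneg _
  have h0 := h.s0
  have h2 := h.s2
  have hd := h.ydist hi
  rw [← hu] at hd
  have hi0 : (0 : ℝ) ≤ i := Nat.cast_nonneg i
  have hki := kk_pos h0 (by linarith : σ < 1) (i + 1)
  have hkm := kk_mul_le h0 (by linarith : σ < 1) i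
  set D := ((i : ℝ) + 2) * u with hD
  have hD0 : 0 ≤ D := by positivity
  have h3 : 1 - yy σ γ (i + 1) ^ 2 ≤ 2 * γ 0 * D := by
    rw [abs_le] at hd
    by_cases hc : γ 0 ≤ D
    · nlinarith [sq_nonneg (yy σ γ (i + 1))]
    · push Not at hc
      have h5 : γ 0 - D ≤ yy σ γ (i + 1) := by linarith [hd.1]
      have h6 : (γ 0 - D) ^ 2 ≤ yy σ γ (i + 1) ^ 2 := pow_le_pow_left₀ (by linarith) h5 2
      nlinarith
  have h4 := mul_le_mul_of_nonneg_left h3 hki.le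
  refine h4.trans ?_
  have h5 : kk σ (i + 1) * (2 * γ 0 * D) = (kk σ (i + 1) * ((i : ℝ) + 2)) * (2 * γ 0 * u) := by
    rw [hD]
    ring
  rw [h5]
  have h6 : 0 ≤ 2 * γ 0 * u := by positivity
  have := mul_le_mul_of_nonneg_right hkm h6
  linarith

/-- the terms for `j ≥ 1`, trivial bound -/
theorem Dt.triv (h : Dt σ N γ) (i : ℕ) :
    kk σ (i + 1) * (1 - yy σ γ (i + 1) ^ 2) ≤ 2 / ((i : ℝ) + 1) := by
  have hki := kk_pos h.s0 (by linarith [h.s2] : σ < 1) (i + 1)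
  have h1 := kk_le2 h.s0 (by linarith [h.s2] : σ < 1) i
  have h2 : kk σ (i + 1) * (1 - yy σ γ (i + 1) ^ 2) ≤ kk σ (i + 1) * 1 :=
    mul_le_mul_of_nonneg_left (by nlinarith [sq_nonneg (yy σ γ (i + 1))]) hki.le
  linarith

end Pool.Agent.W2helper99.RB
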