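import Pool.Agent.W2helper99.RB.E3
import Pool.Agent.Y282.RB.C0

/-!
# The pointwise inequality for `p ≥ 2000 n ^ 2`
-/

set_option autoImplicit false

open Finset

namespace Pool.Agent.W2helper99.RB

open Pool.Agent.Y282.RB

theorem exp_four : Real.exp 4 ≤ 81 := by
  have h1 : Real.exp 1 ≤ 3 := by linarith [Real.exp_one_lt_d9]
  have h2 : Real.exp 4 = Real.exp 1 ^ 4 := by
    rw [← Real.exp_nat_mul]
    norm_num
  rw [h2]
  calc Real.exp 1 ^ 4 ≤ 3 ^ 4 := pow_le_pow_left₀ (Real.exp_pos _).le h1 4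
    _ = 81 := by norm_num

theorem exp_sub_le (x : ℝ) (hx : 0 ≤ x) : Real.exp x - 1 - x ≤ x ^ 2 * Real.exp x := by
  have h1 : 1 - x ≤ Real.exp (-x) := by linarith [Real.add_one_le_exp (-x)]
  have h2 : Real.exp (-x) * Real.exp x = 1 := by
    rw [← Real.exp_add]
    simp
  have h3 : (1 - x) * Real.exp x ≤ Real.exp (-x) * Real.exp x :=
    mul_le_mul_of_nonneg_right h1 (Real.exp_pos _).le
  rw [h2] at h3
  nlinarith

theorem exp_neg_le (x : ℝ) (hx : 0 ≤ x) : Real.exp (-x) - 1 + x ≤ x ^ 2 := by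
  by_cases h : x ≤ 1
  · have h1 := Real.abs_exp_sub_one_sub_id_le (x := -x) (by rw [abs_neg, abs_of_nonneg hx]; exact h)
    have h2 := (abs_le.1 h1).2
    rw [neg_sq] at h2
    linarith
  · push Not at h
    have h1 : Real.exp (-x) ≤ 1 := Real.exp_le_one_iff.2 (by linarith)
    nlinarith

/-- `γ 0 ≤ 1` -/
theorem case_low {p : ℝ} {N : ℕ} {γ : ℕ → ℝ} (h : Dt (1 / p) N γ) (hp : 0 < p)
    (hpn : 2000 * ((N : ℝ) + 1) ^ 2 ≤ p) (ha : γ 0 ≤ 1) :
    ph (p / 2) (γ 0 ^ 2) ≤ (p / 2 - 1) * TT (N + 1) γ := by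
  have hA := h.caseA ha
  have hT : TT (N + 1) γ = √(TT (N + 1) γ) ^ 2 := (Real.sq_sqrt (TT_nonneg _ _)).symm
  rw [hT]
  set u := √(TT (N + 1) γ) with hu
  have hu0 : 0 ≤ u := Real.sqrt_nonneg _
  have hn := h.n1
  set n : ℝ := (N : ℝ) + 1 with hnd
  have ha0 := h.a0
  set b := γ 0 ^ 2 with hb
  have hb0 : 0 ≤ b := sq_nonneg _
  have hb1 : b ≤ 1 := by rw [hb]; nlinarith
  set x := p / 2 * (1 - b) with hx
  have hx0 : 0 ≤ x := by
    rw [hx]
    exact mul_nonneg (by linarith) (by linarith)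
  have hkk := h.kk0_ge
  rw [one_div_one_div] at hkk
  have hxle : x ≤ 3 * (n * u) + 3 / 2 * (n * u) ^ 2 := by
    have h1 : p * (1 - b) ≤ kk (1 / p) 0 * (1 - b) :=
      mul_le_mul_of_nonneg_right hkk (by linarith)
    rw [hx]
    nlinarith
  have hpow : b ^ (p / 2) ≤ Real.exp (-x) := by
    have h1 : b ≤ Real.exp (b - 1) := by linarith [Real.add_one_le_exp (b - 1)]
    have h2 := Real.rpow_le_rpow hb0 h1 (show 0 ≤ p / 2 by linarith)
    rw [← Real.exp_mul] at h2
    refine h2.trans (le_of_eq ?_)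
    congr 1
    rw [hx]
    ring
  have hph : ph (p / 2) b = b ^ (p / 2) - 1 + x := by
    unfold ph
    rw [hx]
    ring
  rw [hph]
  have h1 := exp_neg_le x hx0
  have h2 : Real.exp (-x) ≤ 1 := Real.exp_le_one_iff.2 (by linarith)
  have hnu : 0 ≤ n * u := mul_nonneg (by linarith) hu0
  have hr : 999 * (n * u) ^ 2 ≤ (p / 2 - 1) * u ^ 2 := by
    have h3 : 999 * n ^ 2 ≤ p / 2 - 1 := by nlinarith
    have := mul_le_mul_of_nonneg_right h3 (sq_nonneg u)
    nlinarith
  by_cases hc : n * u ≤ 1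
  · have h3 : x ≤ 4.5 * (n * u) := by nlinarith
    have h4 : x ^ 2 ≤ (4.5 * (n * u)) ^ 2 := pow_le_pow_left₀ hx0 h3 2
    nlinarith
  · push Not at hc
    have h3 : x ≤ 4.5 * (n * u) ^ 2 := by nlinarith
    nlinarith

set_option maxHeartbeats 1000000 in
/-- `1 ≤ γ 0` -/
theorem case_high {p : ℝ} {N : ℕ} {γ : ℕ → ℝ} (h : Dt (1 / p) N γ) (hp : 0 < p)
    (hpn : 2000 * ((N : ℝ) + 1) ^ 2 ≤ p) (ha : 1 ≤ γ 0) (hg : |γ (N + 1)| ≤ γ 0) :
    ph (p / 2) (γ 0 ^ 2) ≤ (p / 2 - 1) * TT (N + 1) γ := by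
  obtain ⟨hd1, hd2⟩ := h.num ha hg
  have hB := h.starB
  have hlin := fun (i : ℕ) (hi : i < N) => h.lin ha hi
  have hT : TT (N + 1) γ = √(TT (N + 1) γ) ^ 2 := (Real.sq_sqrt (TT_nonneg _ _)).symm
  rw [hT]
  have hd0 := d0_le N γ
  set u := √(TT (N + 1) γ) with hu
  have hu0 : 0 ≤ u := Real.sqrt_nonneg _
  have hn := h.n1
  have hN0 : (0 : ℝ) ≤ N := Nat.cast_nonneg N
  set n : ℝ := (N : ℝ) + 1 with hnd
  have hn0 : 0 < n := by linarith
  set a := γ 0 with haa
  have ha2 : a ≤ 1.002 := by nlinarith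
  set δ := a ^ 2 - 1 with hδ
  have hδ0 : 0 ≤ δ := by rw [hδ]; nlinarith
  set x := p / 2 * δ with hx
  have hx0 : 0 ≤ x := by positivity
  have hkk := h.kk0_ge
  rw [one_div_one_div] at hkk
  have hxk : 2 * x ≤ kk (1 / p) 0 * δ := by
    have h1 : p * δ ≤ kk (1 / p) 0 * δ := mul_le_mul_of_nonneg_right hkk hδ0
    rw [hx]
    linarith
  have hpow : (a ^ 2) ^ (p / 2) ≤ Real.exp x := by
    have h1 : a ^ 2 ≤ Real.exp δ := by linarith [Real.add_one_le_exp δ]
    have h2 := Real.rpow_le_rpow (sq_nonneg a) h1 (show 0 ≤ p / 2 by linarith)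
    rw [← Real.exp_mul] at h2
    refine h2.trans (le_of_eq ?_)
    congr 1
    rw [hx]
    ring
  have hph : ph (p / 2) (a ^ 2) ≤ Real.exp x - 1 - x := by
    unfold ph
    have : p / 2 * (a ^ 2 - 1) = x := by rw [hx]
    linarith
  refine hph.trans ?_
  have hnu : 0 ≤ n * u := mul_nonneg (by linarith) hu0
  have hr0 : 999 * n ^ 2 ≤ p / 2 - 1 := by nlinarith
  have hr : 999 * (n * u) ^ 2 ≤ (p / 2 - 1) * u ^ 2 := by
    have := mul_le_mul_of_nonneg_right hr0 (sq_nonneg u)
    nlinarith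
  -- the first term in `starB`
  have hfirst : 2 * (a * (1 / (1 - 1 / p))) * (a - γ 1) ≤ 2.01 * u := by
    have h1 : a - γ 1 ≤ u := (le_abs_self _).trans hd0
    have h2 := h.mu_le
    have h3 := h.mu_ge
    have h4 : a * (1 / (1 - 1 / p)) ≤ 1.002 * 1.001 :=
      mul_le_mul ha2 h2 (by linarith) (by norm_num)
    have h5 : 0 ≤ a * (1 / (1 - 1 / p)) := mul_nonneg (by linarith) (by linarith)
    have h6 : 2 * (a * (1 / (1 - 1 / p))) * (a - γ 1) ≤ 2 * (a * (1 / (1 - 1 / p))) * u :=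
      mul_le_mul_of_nonneg_left h1 (by linarith)
    nlinarith
  by_cases hc1 : 1 ≤ u
  · -- large differences
    have hL := h.log_nn
    set L := Real.log n with hLd
    have h1 : x ≤ 4 + 2 * L := by linarith
    have h2 : Real.exp x ≤ 81 * n ^ 2 := by
      refine (Real.exp_le_exp.2 h1).trans ?_
      rw [Real.exp_add]
      have h3 : Real.exp (2 * L) = n ^ 2 := by
        rw [hLd, two_mul, Real.exp_add, Real.exp_log hn0]
        ring
      rw [h3]
      exact mul_le_mul_of_nonneg_right exp_four (by positivity)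
    have h3 : n ^ 2 ≤ (n * u) ^ 2 := by
      rw [mul_pow]
      exact le_mul_of_one_le_right (sq_nonneg n) (one_le_pow₀ hc1)
    have h4 : 0 ≤ (n * u) ^ 2 := sq_nonneg _
    linarith
  · push Not at hc1
    by_cases hc2 : n * u ≤ 1
    · -- small differences
      have h1 : ∑ i ∈ range N, kk (1 / p) (i + 1) * (1 - yy (1 / p) γ (i + 1) ^ 2)
          ≤ N * (6 * a * u) := by
        refine (sum_le_sum fun i hi => hlin i (mem_range.1 hi)).trans ?_
        rw [sum_const, card_range, nsmul_eq_mul]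
      have h2 : 6 * a * u ≤ 6.012 * u := by nlinarith
      have h3 : (N : ℝ) * (6 * a * u) ≤ N * (6.012 * u) := mul_le_mul_of_nonneg_left h2 hN0
      have hNu : 0 ≤ (N : ℝ) * u := mul_nonneg hN0 hu0
      have enu : n * u = N * u + u := by rw [hnd]; ring
      have h4 : x ≤ 3.01 * (n * u) := by
        have h5 : 2 * x ≤ 2.01 * u + N * (6.012 * u) := by linarith
        have h6 : (N : ℝ) * (6.012 * u) = 6.012 * (N * u) := by ring
        linarith
      have h5 : x ≤ 4 := by linarith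
      have h6 : Real.exp x ≤ 81 := (Real.exp_le_exp.2 h5).trans exp_four
      have h7 := exp_sub_le x hx0
      have h8 : x ^ 2 ≤ (3.01 * (n * u)) ^ 2 := pow_le_pow_left₀ hx0 h4 2
      have h9 : x ^ 2 * Real.exp x ≤ (3.01 * (n * u)) ^ 2 * 81 :=
        mul_le_mul h8 h6 (Real.exp_pos _).le (by positivity)
      have h10 : (3.01 * (n * u)) ^ 2 * 81 ≤ 999 * (n * u) ^ 2 := by
        rw [mul_pow]
        have : 0 ≤ (n * u) ^ 2 := sq_nonneg _
        linarith
      linarith
    · push Not at hc2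
      set W := 3 * a * (n * u) with hW
      have hW1 : 1 ≤ W := by rw [hW]; nlinarith
      have hlogW : 0 ≤ Real.log W := Real.log_nonneg hW1
      have h1 : ∑ i ∈ range N, kk (1 / p) (i + 1) * (1 - yy (1 / p) γ (i + 1) ^ 2)
          ≤ 4 + 2 * Real.log W := by
        have h2 : ∑ i ∈ range N, kk (1 / p) (i + 1) * (1 - yy (1 / p) γ (i + 1) ^ 2)
            ≤ ∑ i ∈ range N, min (2 / ((i : ℝ) + 1)) (6 * a * u) :=
          sum_le_sum fun i hi => le_min (h.triv i) (hlin i (mem_range.1 hi))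
        obtain ⟨h3, h4⟩ := min_sum (6 * a * u) (by positivity) N
          (fun i => min (2 / ((i : ℝ) + 1)) (6 * a * u)) (fun i => min_le_left _ _)
          (fun i => min_le_right _ _)
        by_cases hc3 : (N : ℝ) * (6 * a * u) ≤ 2
        · have := h3 hc3
          linarith
        · push Not at hc3
          have h5 := h4 hc3
          have h6 : Real.log (N * (6 * a * u) / 2) ≤ Real.log W := by
            refine Real.log_le_log (by linarith) ?_
            have h7 : 0 ≤ a * u := by positivity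
            have h8 : W = 3 * a * (N * u + u) := by rw [hW, hnd]; ring
            rw [h8]
            linarith
          linarith
      have h2 : x ≤ 4 + Real.log W := by linarith
      have h3 : Real.exp x ≤ 81 * W := by
        refine (Real.exp_le_exp.2 h2).trans ?_
        rw [Real.exp_add, Real.exp_log (by linarith)]
        exact mul_le_mul_of_nonneg_right exp_four (by linarith)
      have h4 : W ≤ 3.006 * (n * u) ^ 2 := by
        rw [hW]
        have h5 : 3 * a * (n * u) ≤ 3.006 * (n * u) :=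
          mul_le_mul_of_nonneg_right (by linarith) hnu
        have h6 : n * u ≤ (n * u) ^ 2 := by nlinarith
        linarith
      have h5 : 0 ≤ (n * u) ^ 2 := sq_nonneg _
      linarith

/-- **The pointwise inequality for `p ≥ 2000 n ^ 2`.** -/
theorem star_big (n : ℕ) (p : ℝ) (hn : 1 ≤ n) (hp : 2000 * (n : ℝ) ^ 2 ≤ p) : Star n p := by
  obtain ⟨N, rfl⟩ : ∃ N, n = N + 1 := ⟨n - 1, by omega⟩
  push_cast at hp
  have hN0 : (0 : ℝ) ≤ N := Nat.cast_nonneg N
  have hn2 : (1 : ℝ) ≤ ((N : ℝ) + 1) ^ 2 := by nlinarith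
  have hp0 : 0 < p := by linarith
  refine C0.main (N + 1) p hn (by linarith) fun γ hL h0 hc => ?_
  have h : Dt (1 / p) N γ := by
    refine ⟨by positivity, ?_, hL, h0⟩
    rw [div_mul_eq_mul_div, one_mul, div_le_iff₀ hp0]
    linarith
  by_cases ha : γ 0 ≤ 1
  · exact case_low h hp0 hp ha
  · have hg : |γ (N + 1)| ≤ γ 0 := by
      rcases hc with hc | hc
      · exact absurd hc ha
      · exact abs_le_of_sq_le_sq hc h0
    exact case_high h hp0 hp (not_le.1 ha).le hg

end Pool.Agent.W2helper99.RB
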